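import Pool.Agent.Q175.TR.Ray

/-! The class `H^1_0(Ω)` with weak gradients. -/

set_option autoImplicit false

open MeasureTheory Laplacian InnerProductSpace Filter Topology Set
open scoped ContDiff ENNReal

namespace Pool.Agent.Q175.WS

variable {E : Type*} [NormedAddCommGroup E] [InnerProductSpace ℝ E] [FiniteDimensional ℝ E]
  [MeasurableSpace E] [BorelSpace E]

omit [FiniteDimensional ℝ E] [MeasurableSpace E] [BorelSpace E] in
/-- `φ ∈ C_c^∞(Ω)`. -/
def IsTest (Ω : Set E) (φ : E → ℝ) : Prop :=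
  ContDiff ℝ ∞ φ ∧ HasCompactSupport φ ∧ tsupport φ ⊆ Ω

/-- `u ∈ H^1_0(Ω)` with weak gradient `G`. Functions on `Ω` are extended by `0`. -/
def IsH10 (Ω : Set E) (u : E → ℝ) (G : E → E) : Prop :=
  AEStronglyMeasurable u volume ∧ AEStronglyMeasurable G volume ∧
    ∃ φ : ℕ → E → ℝ, (∀ k, IsTest Ω (φ k)) ∧
      Tendsto (fun k => eLpNorm (fun x => φ k x - u x) 2 volume) atTop (𝓝 0) ∧
      Tendsto (fun k => eLpNorm (fun x => gradient (φ k) x - G x) 2 volume) atTop (𝓝 0)

lemma isH10_test {Ω : Set E} {φ : E → ℝ} (h : IsTest Ω φ) : IsH10 Ω φ (gradient φ) := by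
  refine ⟨h.1.continuous.aestronglyMeasurable,
    (TR.grad_cont (h.1.of_le (WithTop.coe_le_coe.mpr le_top))).aestronglyMeasurable,
    fun _ => φ, fun _ => h, ?_, ?_⟩ <;> simp

omit [FiniteDimensional ℝ E] [MeasurableSpace E] [BorelSpace E] in
lemma IsTest.add {Ω : Set E} {φ ψ : E → ℝ} (h : IsTest Ω φ) (h' : IsTest Ω ψ) :
    IsTest Ω (fun x => φ x + ψ x) := by
  refine ⟨h.1.add h'.1, h.2.1.add h'.2.1, ?_⟩
  intro x hx
  by_contra hcon
  have h1 : x ∉ tsupport φ := fun h1 => hcon (h.2.2 h1)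
  have h2 : x ∉ tsupport ψ := fun h1 => hcon (h'.2.2 h1)
  rw [notMem_tsupport_iff_eventuallyEq] at h1 h2
  refine (notMem_tsupport_iff_eventuallyEq.mpr ?_) hx
  filter_upwards [h1, h2] with y hy hy2
  simp [hy, hy2]

omit [MeasurableSpace E] [BorelSpace E] in
lemma gradient_add' {φ ψ : E → ℝ} (h : ContDiff ℝ ∞ φ) (h' : ContDiff ℝ ∞ ψ) (x : E) :
    gradient (fun x => φ x + ψ x) x = gradient φ x + gradient ψ x := by
  unfold gradient
  rw [fderiv_fun_add (h.differentiable (by simp) x) (h'.differentiable (by simp) x), map_add]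

lemma IsH10.add {Ω : Set E} {u v : E → ℝ} {G H : E → E} (h : IsH10 Ω u G) (h' : IsH10 Ω v H) :
    IsH10 Ω (fun x => u x + v x) (fun x => G x + H x) := by
  obtain ⟨mu, mG, φ, hφ, l1, l2⟩ := h
  obtain ⟨mv, mH, ψ, hψ, l3, l4⟩ := h'
  have gc : ∀ {f : E → ℝ}, ContDiff ℝ ∞ f → Continuous (gradient f) := fun hf =>
    TR.grad_cont (hf.of_le (WithTop.coe_le_coe.mpr le_top))
  refine ⟨mu.add mv, mG.add mH, fun k x => φ k x + ψ k x, fun k => (hφ k).add (hψ k), ?_, ?_⟩
  · have hs := l1.add l3
    rw [add_zero] at hs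
    refine tendsto_of_tendsto_of_tendsto_of_le_of_le tendsto_const_nhds hs (fun _ => zero_le) fun k => ?_
    have := eLpNorm_add_le (μ := (volume : Measure E)) (p := 2) (f := fun x => φ k x - u x)
      (g := fun x => ψ k x - v x) ((hφ k).1.continuous.aestronglyMeasurable.sub mu)
      ((hψ k).1.continuous.aestronglyMeasurable.sub mv) (by norm_num)
    refine le_trans (le_of_eq ?_) this
    congr 1
    ext x
    simp only [Pi.add_apply]
    ring
  · have hs := l2.add l4
    rw [add_zero] at hs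
    refine tendsto_of_tendsto_of_tendsto_of_le_of_le tendsto_const_nhds hs (fun _ => zero_le) fun k => ?_
    have := eLpNorm_add_le (μ := (volume : Measure E)) (p := 2) (f := fun x => gradient (φ k) x - G x)
      (g := fun x => gradient (ψ k) x - H x) ((gc (hφ k).1).aestronglyMeasurable.sub mG)
      ((gc (hψ k).1).aestronglyMeasurable.sub mH) (by norm_num)
    refine le_trans (le_of_eq ?_) this
    congr 1
    ext x
    rw [gradient_add' (hφ k).1 (hψ k).1]
    simp only [Pi.add_apply]
    abel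

/-- bounded pointwise convergence on a bounded set gives `L²` convergence -/
lemma tendsto_L2 {F : Type*} [NormedAddCommGroup F] {Ω : Set E} (hΩ : MeasurableSet Ω)
    (hbd : Bornology.IsBounded Ω) {f : ℕ → E → F} {M : ℝ}
    (hm : ∀ n, AEStronglyMeasurable (f n) volume) (hz : ∀ n, ∀ x ∉ Ω, f n x = 0)
    (hb : ∀ n, ∀ x ∈ Ω, ‖f n x‖ ≤ M) (hl : ∀ x ∈ Ω, Tendsto (fun n => f n x) atTop (𝓝 0)) :
    Tendsto (fun n => eLpNorm (f n) 2 volume) atTop (𝓝 0) := by
  have h1 : ∀ n, eLpNorm (f n) 2 volume = (∫⁻ x, ‖f n x‖ₑ ^ (2:ℝ)) ^ (1/2 : ℝ) := by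
    intro n
    rw [eLpNorm_eq_lintegral_rpow_enorm_toReal (by norm_num) (by norm_num)]
    simp
  simp only [h1]
  have h2 : Tendsto (fun n => ∫⁻ x, ‖f n x‖ₑ ^ (2:ℝ)) atTop (𝓝 (∫⁻ _ : E, 0)) := by
    apply tendsto_lintegral_of_dominated_convergence' (Ω.indicator fun _ => (ENNReal.ofReal M) ^ (2:ℝ))
    · intro n
      exact ((hm n).enorm).pow_const _
    · intro n
      filter_upwards with x
      by_cases hx : x ∈ Ω
      · rw [indicator_of_mem hx]
        gcongr
        rw [← ofReal_norm]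
        exact ENNReal.ofReal_le_ofReal (hb n x hx)
      · rw [indicator_of_notMem hx, hz n x hx]
        simp
    · rw [lintegral_indicator hΩ, lintegral_const]
      exact ENNReal.mul_ne_top (by simp) (by simpa using hbd.measure_lt_top.ne)
    · filter_upwards with x
      by_cases hx : x ∈ Ω
      · have := (hl x hx).enorm
        have h3 := (ENNReal.continuous_rpow_const (y := 2)).tendsto 0 |>.comp (by simpa using this)
        simpa [Function.comp_def] using h3
      · have : ∀ n, ‖f n x‖ₑ ^ (2:ℝ) = 0 := fun n => by rw [hz n x hx]; simp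
        simp [this]
  rw [lintegral_zero] at h2
  have h3 := (ENNReal.continuous_rpow_const (y := 1/2)).tendsto 0 |>.comp h2
  simpa [Function.comp_def] using h3

/-- A function which is smooth near the closure of a bounded open set, positive in it and zero on its
boundary belongs to `H^1_0`. -/
theorem isH10_of_pos {Ω : Set E} (hΩ : IsOpen Ω) (hbd : Bornology.IsBounded Ω)
    {F : E → ℝ} (hF : ContDiff ℝ ∞ F) (hpos : ∀ x ∈ Ω, 0 < F x)
    (hfr : ∀ x ∈ frontier Ω, F x = 0) : IsH10 Ω (Ω.indicator F) (Ω.indicator (gradient F)) := by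
  have hF1 : ContDiff ℝ 1 F := hF.of_le (WithTop.coe_le_coe.mpr le_top)
  obtain ⟨C, hC⟩ := TR.dth_bdd
  set v : ℕ → E → ℝ := fun n => Ω.indicator (fun x => F x * TR.th ((n + 1 : ℝ) * F x)) with hv
  have hvin : ∀ n, ∀ x ∈ Ω, v n =ᶠ[𝓝 x] fun x => F x * TR.th ((n + 1 : ℝ) * F x) := by
    intro n x hx
    filter_upwards [hΩ.mem_nhds hx] with y hy
    simp only [hv]
    rw [indicator_of_mem hy]
  have hvout : ∀ n, ∀ x ∉ Ω, v n =ᶠ[𝓝 x] fun _ => 0 := by
    intro n x hx
    by_cases hx2 : x ∈ closure Ω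
    · have hfx : F x = 0 := hfr x ⟨hx2, by rwa [hΩ.interior_eq]⟩
      have hev : ∀ᶠ y in 𝓝 x, (n + 1 : ℝ) * F y < 1 := by
        have hcont : ContinuousAt (fun y => (n + 1 : ℝ) * F y) x :=
          (continuous_const.mul hF.continuous).continuousAt
        apply hcont.eventually_lt continuousAt_const
        simp [hfx]
      filter_upwards [hev] with y hy
      simp only [hv]
      by_cases hy2 : y ∈ Ω
      · rw [indicator_of_mem hy2, TR.th_zero hy.le, mul_zero]
      · rw [indicator_of_notMem hy2]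
    · filter_upwards [isClosed_closure.isOpen_compl.mem_nhds hx2] with y hy
      simp only [hv]
      rw [indicator_of_notMem (fun h => hy (subset_closure h))]
  have hFt : ∀ n : ℕ, ContDiff ℝ ∞ (fun x => F x * TR.th ((n + 1 : ℝ) * F x)) := fun n =>
    hF.mul (TR.th_smooth.comp (contDiff_const.mul hF))
  have hvs : ∀ n, ContDiff ℝ ∞ (v n) := by
    intro n
    rw [contDiff_iff_contDiffAt]
    intro x
    by_cases hx : x ∈ Ω
    · exact (hFt n).contDiffAt.congr_of_eventuallyEq (hvin n x hx)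
    · exact contDiffAt_const.congr_of_eventuallyEq (hvout n x hx)
  have hsub : ∀ n, tsupport (v n) ⊆ Ω := by
    intro n x hx
    by_contra h
    exact (notMem_tsupport_iff_eventuallyEq.mpr (hvout n x h)) hx
  have hcs : ∀ n, HasCompactSupport (v n) := by
    intro n
    exact (Metric.isCompact_of_isClosed_isBounded (isClosed_tsupport _) (hbd.subset (hsub n)))
  have hvgrad : ∀ n, ∀ x ∈ Ω, gradient (v n) x = TR.dth ((n + 1 : ℝ) * F x) • gradient F x := by
    intro n x hx
    have hdF : HasFDerivAt F (toDual ℝ E (gradient F x)) x :=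
      (hF1.differentiable (by norm_num) x).hasGradientAt.hasFDerivAt
    have h1 : HasDerivAt (fun s : ℝ => s * TR.th ((n + 1 : ℝ) * s)) (TR.dth ((n + 1 : ℝ) * F x)) (F x) := by
      have h2 : HasDerivAt (fun s : ℝ => TR.th ((n + 1 : ℝ) * s)) (deriv TR.th ((n + 1 : ℝ) * F x) * (n + 1 : ℝ)) (F x) := by
        have h3 : HasDerivAt (fun s : ℝ => (n + 1 : ℝ) * s) (n + 1 : ℝ) (F x) := by
          simpa using (hasDerivAt_id (F x)).const_mul (n + 1 : ℝ)
        exact (TR.hasDerivAt_th _).comp (F x) h3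
      have h4 := (hasDerivAt_id (F x)).mul h2
      refine h4.congr_deriv ?_
      unfold TR.dth
      simp
      ring
    have h5 := h1.comp_hasFDerivAt x hdF
    have h6 : HasGradientAt (v n) (TR.dth ((n + 1 : ℝ) * F x) • gradient F x) x := by
      rw [hasGradientAt_iff_hasFDerivAt]
      refine (h5.congr_of_eventuallyEq (hvin n x hx)).congr_fderiv ?_
      simp
    exact h6.gradient
  have hvgz : ∀ n, ∀ x ∉ Ω, gradient (v n) x = 0 := by
    intro n x hx
    have h6 : HasGradientAt (v n) 0 x := by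
      rw [hasGradientAt_iff_hasFDerivAt]
      refine ((hasFDerivAt_const (0:ℝ) x).congr_of_eventuallyEq (hvout n x hx)).congr_fderiv ?_
      simp
    exact h6.gradient
  have hmeasF : AEStronglyMeasurable (Ω.indicator F) volume :=
    hF.continuous.aestronglyMeasurable.indicator hΩ.measurableSet
  have hmeasG : AEStronglyMeasurable (Ω.indicator (gradient F)) volume :=
    (TR.grad_cont hF1).aestronglyMeasurable.indicator hΩ.measurableSet
  have hlarge : ∀ x ∈ Ω, ∀ᶠ n : ℕ in atTop, 2 < (n + 1 : ℝ) * F x := by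
    intro x hx
    have h1 : Tendsto (fun n : ℕ => ((n : ℝ) + 1) * F x) atTop atTop :=
      (tendsto_natCast_atTop_atTop.atTop_add tendsto_const_nhds).atTop_mul_const (hpos x hx)
    exact h1.eventually_gt_atTop 2
  have hnn : ∀ n : ℕ, ∀ x ∈ Ω, 0 ≤ (n + 1 : ℝ) * F x := fun n x hx =>
    mul_nonneg (by positivity) (hpos x hx).le
  have hcomp : IsCompact (closure Ω) := hbd.isCompact_closure
  obtain ⟨B1, hB1⟩ := hcomp.exists_bound_of_continuousOn hF.continuous.continuousOn
  obtain ⟨B2, hB2⟩ := hcomp.exists_bound_of_continuousOn (TR.grad_cont hF1).continuousOn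
  refine ⟨hmeasF, hmeasG, v, fun n => ⟨hvs n, hcs n, hsub n⟩, ?_, ?_⟩
  · apply tendsto_L2 hΩ.measurableSet hbd (M := B1)
    · exact fun n => (hvs n).continuous.aestronglyMeasurable.sub hmeasF
    · intro n x hx
      simp only [hv]
      rw [indicator_of_notMem hx, indicator_of_notMem hx, sub_zero]
    · intro n x hx
      simp only [hv]
      rw [indicator_of_mem hx, indicator_of_mem hx]
      have e : F x * TR.th ((n + 1 : ℝ) * F x) - F x = -(F x * (1 - TR.th ((n + 1 : ℝ) * F x))) := by ring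
      rw [e, norm_neg, norm_mul]
      have h1 := hB1 x (subset_closure hx)
      have h2 : ‖1 - TR.th ((n + 1 : ℝ) * F x)‖ ≤ 1 := by
        rw [Real.norm_eq_abs, abs_le]
        constructor <;> linarith [TR.th_nonneg ((n + 1 : ℝ) * F x), TR.th_le_one ((n + 1 : ℝ) * F x)]
      calc ‖F x‖ * ‖1 - TR.th ((n + 1 : ℝ) * F x)‖ ≤ ‖F x‖ * 1 := by gcongr
        _ ≤ B1 := by rw [mul_one]; exact h1
    · intro x hx
      apply tendsto_const_nhds.congr'
      filter_upwards [hlarge x hx] with n hn
      simp only [hv]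
      rw [indicator_of_mem hx, indicator_of_mem hx, TR.th_one hn.le]
      ring
  · apply tendsto_L2 hΩ.measurableSet hbd (M := (C + 1) * B2)
    · exact fun n => (TR.grad_cont ((hvs n).of_le (WithTop.coe_le_coe.mpr le_top))).aestronglyMeasurable.sub hmeasG
    · intro n x hx
      rw [hvgz n x hx, indicator_of_notMem hx, sub_zero]
    · intro n x hx
      rw [hvgrad n x hx, indicator_of_mem hx]
      have e : TR.dth ((n + 1 : ℝ) * F x) • gradient F x - gradient F x = (TR.dth ((n + 1 : ℝ) * F x) - 1) • gradient F x := by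
        rw [sub_smul, one_smul]
      rw [e, norm_smul]
      have h1 := hB2 x (subset_closure hx)
      have h2 : ‖TR.dth ((n + 1 : ℝ) * F x) - 1‖ ≤ C + 1 := by
        refine (norm_sub_le _ _).trans ?_
        rw [norm_one]
        have := hC _ (hnn n x hx)
        rw [Real.norm_eq_abs]
        linarith
      have h3 : 0 ≤ C + 1 := (norm_nonneg _).trans h2
      exact mul_le_mul h2 h1 (norm_nonneg _) h3
    · intro x hx
      apply tendsto_const_nhds.congr'
      filter_upwards [hlarge x hx] with n hn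
      rw [hvgrad n x hx, indicator_of_mem hx, TR.dth_one hn, one_smul, sub_self]

/-- `L²` convergence gives convergence of integrals against bounded functions on bounded sets. -/
lemma tendsto_L1_of_L2 {F : Type*} [NormedAddCommGroup F] {Ω : Set E} (hΩ : MeasurableSet Ω)
    (hbd : Bornology.IsBounded Ω) {f : ℕ → E → F}
    (hm : ∀ n, AEStronglyMeasurable (f n) volume)
    (hl : Tendsto (fun n => eLpNorm (f n) 2 volume) atTop (𝓝 0)) :
    Tendsto (fun n => eLpNorm (f n) 1 (volume.restrict Ω)) atTop (𝓝 0) := by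
  have hfin : (volume Ω) ^ (1/2 : ℝ) ≠ ⊤ := ENNReal.rpow_ne_top_of_nonneg (by norm_num) hbd.measure_lt_top.ne
  have h1 : Tendsto (fun n => eLpNorm (f n) 2 volume * (volume Ω) ^ (1/2 : ℝ)) atTop (𝓝 0) := by
    have := ENNReal.Tendsto.mul_const hl (Or.inr hfin)
    simpa using this
  refine tendsto_of_tendsto_of_tendsto_of_le_of_le tendsto_const_nhds h1 (fun _ => zero_le) fun n => ?_
  have h2 := eLpNorm_le_eLpNorm_mul_rpow_measure_univ (μ := volume.restrict Ω) (p := 1) (q := 2)
    (by norm_num) (f := f n) (hm n).restrict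
  refine h2.trans ?_
  rw [Measure.restrict_apply_univ]
  have e : (1 / (1 : ℝ≥0∞).toReal - 1 / (2 : ℝ≥0∞).toReal) = 1/2 := by norm_num
  rw [e]
  gcongr
  exact Measure.restrict_le_self

omit [FiniteDimensional ℝ E] [MeasurableSpace E] [BorelSpace E] in
lemma test_zero {Ω : Set E} {φ : E → ℝ} (h : IsTest Ω φ) {x : E} (hx : x ∉ Ω) : φ x = 0 :=
  image_eq_zero_of_notMem_tsupport fun h' => hx (h.2.2 h')

omit [MeasurableSpace E] [BorelSpace E] in
lemma test_grad_zero {Ω : Set E} {φ : E → ℝ} (h : IsTest Ω φ) {x : E} (hx : x ∉ Ω) : gradient φ x = 0 := by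
  have h1 : x ∉ tsupport φ := fun h' => hx (h.2.2 h')
  rw [notMem_tsupport_iff_eventuallyEq] at h1
  unfold gradient
  rw [h1.fderiv_eq]
  simp

lemma memL2_of_tendsto {F : Type*} [NormedAddCommGroup F] {f : ℕ → E → F} {g : E → F}
    (hf : ∀ n, MemLp (f n) 2 volume) (hg : AEStronglyMeasurable g volume)
    (hl : Tendsto (fun k => eLpNorm (fun x => f k x - g x) 2 volume) atTop (𝓝 0)) :
    MemLp g 2 volume := by
  obtain ⟨k, hk⟩ := (hl.eventually (Iio_mem_nhds (show (0 : ℝ≥0∞) < 1 by norm_num))).exists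
  have hk' : eLpNorm (fun x => f k x - g x) 2 volume < 1 := hk
  have h1 : MemLp (fun x => f k x - g x) 2 volume := ⟨(hf k).1.sub hg, hk'.trans ENNReal.one_lt_top⟩
  have h2 := (hf k).sub h1
  have e : f k - (fun x => f k x - g x) = g := by ext x; simp
  rwa [e] at h2

lemma H10_memL2 {Ω : Set E} {v : E → ℝ} {V : E → E} (h : IsH10 Ω v V) :
    MemLp v 2 volume ∧ MemLp V 2 volume := by
  obtain ⟨mv, mV, φ, hφ, l1, l2⟩ := h
  have gc : ∀ k, Continuous (gradient (φ k)) := fun k =>
    TR.grad_cont ((hφ k).1.of_le (WithTop.coe_le_coe.mpr le_top))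
  exact ⟨memL2_of_tendsto (fun k => (hφ k).1.continuous.memLp_of_hasCompactSupport (hφ k).2.1) mv l1,
    memL2_of_tendsto (fun k => (gc k).memLp_of_hasCompactSupport (TR.grad_supp (hφ k).2.1)) mV l2⟩

lemma H10_integrable {Ω : Set E} (hbd : Bornology.IsBounded Ω)
    {v : E → ℝ} {V : E → E} (h : IsH10 Ω v V) : IntegrableOn v Ω ∧ IntegrableOn V Ω := by
  have hf : IsFiniteMeasure (volume.restrict Ω) := ⟨by simpa using hbd.measure_lt_top⟩
  obtain ⟨h1, h2⟩ := H10_memL2 h
  exact ⟨(h1.restrict Ω).integrable (by norm_num), (h2.restrict Ω).integrable (by norm_num)⟩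

/-- Green's formula for a smooth function against `v ∈ H^1_0(Ω)`. -/
theorem green_H10 {Ω : Set E} (hΩ : IsOpen Ω) (hbd : Bornology.IsBounded Ω) {w : E → ℝ}
    (hw : ContDiff ℝ ∞ w) {v : E → ℝ} {V : E → E} (h : IsH10 Ω v V) :
    ∫ x in Ω, inner ℝ (gradient w x) (V x) = -∫ x in Ω, v x * Δ w x := by
  have hint := H10_integrable hbd h
  obtain ⟨mv, mV, φ, hφ, l1, l2⟩ := h
  have hf : IsFiniteMeasure (volume.restrict Ω) := ⟨by simpa using hbd.measure_lt_top⟩
  have hcomp : IsCompact (closure Ω) := hbd.isCompact_closure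
  have hw2 : ContDiff ℝ 2 w := hw.of_le (WithTop.coe_le_coe.mpr le_top)
  have hw1 : ContDiff ℝ 1 w := hw.of_le (WithTop.coe_le_coe.mpr le_top)
  have gw := TR.grad_cont hw1
  have lw : Continuous (Δ w) := by
    have : Δ w = fun x => ∑ i, fderiv ℝ (fun y => fderiv ℝ w y (stdOrthonormalBasis ℝ E i)) x
      (stdOrthonormalBasis ℝ E i) := funext fun x => TR.laplacian_sum hw2 x
    rw [this]
    refine continuous_finsetSum _ fun i _ => ?_
    have h1 : ContDiff ℝ 1 (fun y => fderiv ℝ w y (stdOrthonormalBasis ℝ E i)) :=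
      (hw2.fderiv_right (m := 1) (by norm_num)).clm_apply contDiff_const
    exact (h1.continuous_fderiv (by norm_num)).clm_apply continuous_const
  obtain ⟨B1, hB1⟩ := hcomp.exists_bound_of_continuousOn gw.continuousOn
  obtain ⟨B2, hB2⟩ := hcomp.exists_bound_of_continuousOn lw.continuousOn
  have gc : ∀ k, Continuous (gradient (φ k)) := fun k =>
    TR.grad_cont ((hφ k).1.of_le (WithTop.coe_le_coe.mpr le_top))
  have a1 := tendsto_L1_of_L2 hΩ.measurableSet hbd (fun n => (hφ n).1.continuous.aestronglyMeasurable.sub mv) l1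
  have a2 := tendsto_L1_of_L2 hΩ.measurableSet hbd (fun n => (gc n).aestronglyMeasurable.sub mV) l2
  -- identity for test functions
  have hid : ∀ k, ∫ x in Ω, inner ℝ (gradient w x) (gradient (φ k) x) = -∫ x in Ω, φ k x * Δ w x := by
    intro k
    have h1 := TR.green1 ((hφ k).1.of_le (WithTop.coe_le_coe.mpr le_top)) (hφ k).2.1 hw2
    rw [setIntegral_eq_integral_of_forall_compl_eq_zero, setIntegral_eq_integral_of_forall_compl_eq_zero, ← h1]
    · congr 1; ext x; rw [real_inner_comm]
    · intro x hx; rw [test_zero (hφ k) hx, zero_mul]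
    · intro x hx; rw [test_grad_zero (hφ k) hx, inner_zero_right]
  -- integrability
  have hin : ∀ {F : Type _} [NormedAddCommGroup F] {f : E → F}, Continuous f → IntegrableOn f Ω := fun hf =>
    (hf.continuousOn.integrableOn_compact hcomp).mono_set subset_closure
  -- first limit
  have L1 : Tendsto (fun k => ∫ x in Ω, inner ℝ (gradient w x) (gradient (φ k) x)) atTop
      (𝓝 (∫ x in Ω, inner ℝ (gradient w x) (V x))) := by
    apply tendsto_integral_of_L1'
    · exact gw.aestronglyMeasurable.inner mV.restrict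
    · exact Eventually.of_forall fun k => hin (gw.inner (gc k))
    · have hB10 : ∀ x ∈ Ω, ‖gradient w x‖ ≤ |B1| := fun x hx => (hB1 x (subset_closure hx)).trans (le_abs_self _)
      have h1 : Tendsto (fun k => ENNReal.ofReal |B1| * eLpNorm (fun x => gradient (φ k) x - V x) 1 (volume.restrict Ω)) atTop (𝓝 0) := by
        have := ENNReal.Tendsto.const_mul (a := ENNReal.ofReal |B1|) a2 (Or.inr ENNReal.ofReal_ne_top)
        rw [mul_zero] at this
        exact this
      refine tendsto_of_tendsto_of_tendsto_of_le_of_le tendsto_const_nhds h1 (fun _ => zero_le) fun k => ?_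
      apply eLpNorm_le_mul_eLpNorm_of_ae_le_mul
      filter_upwards [ae_restrict_mem hΩ.measurableSet] with x hx
      simp only [Pi.sub_apply]
      rw [← inner_sub_right]
      refine (norm_inner_le_norm _ _).trans ?_
      gcongr
      exact hB10 x hx
  have L2 : Tendsto (fun k => ∫ x in Ω, φ k x * Δ w x) atTop (𝓝 (∫ x in Ω, v x * Δ w x)) := by
    apply tendsto_integral_of_L1'
    · exact mv.restrict.mul lw.aestronglyMeasurable
    · exact Eventually.of_forall fun k => hin ((hφ k).1.continuous.mul lw)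
    · have hB20 : ∀ x ∈ Ω, ‖Δ w x‖ ≤ |B2| := fun x hx => (hB2 x (subset_closure hx)).trans (le_abs_self _)
      have h1 : Tendsto (fun k => ENNReal.ofReal |B2| * eLpNorm (fun x => φ k x - v x) 1 (volume.restrict Ω)) atTop (𝓝 0) := by
        have := ENNReal.Tendsto.const_mul (a := ENNReal.ofReal |B2|) a1 (Or.inr ENNReal.ofReal_ne_top)
        rw [mul_zero] at this
        exact this
      refine tendsto_of_tendsto_of_tendsto_of_le_of_le tendsto_const_nhds h1 (fun _ => zero_le) fun k => ?_
      apply eLpNorm_le_mul_eLpNorm_of_ae_le_mul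
      filter_upwards [ae_restrict_mem hΩ.measurableSet] with x hx
      simp only [Pi.sub_apply]
      rw [← sub_mul, norm_mul, mul_comm]
      gcongr
      exact hB20 x hx
  have L3 := L2.neg
  refine tendsto_nhds_unique L1 (L3.congr fun k => ?_)
  rw [hid k]

end Pool.Agent.Q175.WS
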